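import Pool.Agent.Y294.TB.Stm
import Pool.Agent.Y86.TB.SelCore

/-!
The lemma SEL of the project TB.
-/

set_option autoImplicit false

namespace Pool.Agent.Y86.TB

theorem sel : Pool.Agent.Y294.TB.S_SEL := sel_core

end Pool.Agent.Y86.TB
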